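import Mathlib
import Pool.Agent.Work.MP_7dea6f_gt.Main

/-!
# First Čech cohomology rank of homogeneous curves

Q1 of the problem asks: if `X` is a homogeneous curve such that the rank `r` of `Ȟ¹(X; ℤ)` is finite,
is `r ≤ 1`? The answer is yes, see `result` at the end of the file.

The Čech cohomology group is written out here from its definition: it is the direct limit, over all
open covers ordered by refinement, of the first integral cohomology groups of their nerves. No
identification with another group (such as the group of homotopy classes of maps to the circle) is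
built into the statement.
-/

set_option autoImplicit false

universe u

open scoped TensorProduct

namespace Pool.Agent.Results.MP_7dea6f_gt.CechRankAtMostOne

section Definitions

/-- `𝒰` is an open cover of `X`: its members are open sets and their union is `X`. -/
def IsCover {X : Type u} [TopologicalSpace X] (𝒰 : Set (Set X)) : Prop :=
  (∀ U ∈ 𝒰, IsOpen U) ∧ ⋃₀ 𝒰 = Set.univ

/-- An integral `1`-cocycle of the nerve of an open cover of `X`. The simplices of the nerve are the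
finite sets of members with nonempty intersection, so a `1`-cocycle is an integer valued function
`val` of ordered pairs `U`, `V` of intersecting members of the cover with
`val U V + val V W = val U W` whenever `U ∩ V ∩ W` is nonempty. (For convenience `val` is defined at
all pairs of sets; its values at other pairs play no role, see `IsRefinement`.) -/
structure Cocycle (X : Type u) [TopologicalSpace X] : Type u where
  /-- the open cover -/
  cover : Set (Set X)
  /-- it is an open cover -/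
  isCover : IsCover cover
  /-- the values of the cocycle -/
  val : Set X → Set X → ℤ
  /-- the cocycle condition -/
  cocycle : ∀ U ∈ cover, ∀ V ∈ cover, ∀ W ∈ cover, (U ∩ V ∩ W).Nonempty →
    val U V + val V W = val U W

/-- `c` is the sum of the cocycles `a` and `b` on the same open cover. -/
def IsSum {X : Type u} [TopologicalSpace X] (a b c : Cocycle X) : Prop :=
  a.cover = c.cover ∧ b.cover = c.cover ∧ ∀ U V, c.val U V = a.val U V + b.val U V

/-- The open cover of `d` refines the open cover of `c`, and `d` represents the image of the class of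
`c` in the first cohomology of the nerve of the open cover of `d`: there is a refinement projection
`p`, which sends every member `V` of the cover of `d` to a member `p V` of the cover of `c` that
contains `V`, and `d` differs from the pulled back cocycle `(V, W) ↦ c (p V) (p W)` by the coboundary
`(V, W) ↦ b W - b V` of an integer valued function `b` (at all pairs of intersecting members). -/
def IsRefinement {X : Type u} [TopologicalSpace X] (c d : Cocycle X) : Prop :=
  ∃ (p : Set X → Set X) (b : Set X → ℤ), (∀ V ∈ d.cover, p V ∈ c.cover ∧ V ⊆ p V) ∧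
    ∀ V ∈ d.cover, ∀ W ∈ d.cover, (V ∩ W).Nonempty →
      d.val V W = c.val (p V) (p W) + (b W - b V)

/-- The relations of the direct limit: `c = a + b` for cocycles `a`, `b` on the same open cover with
sum `c`, and `d = c` whenever `d` represents the image of the class of `c` on a finer open cover. -/
def relations (X : Type u) [TopologicalSpace X] : Set (FreeAbelianGroup (Cocycle X)) :=
  {z | (∃ a b c : Cocycle X, IsSum a b c ∧
      z = FreeAbelianGroup.of c - (FreeAbelianGroup.of a + FreeAbelianGroup.of b)) ∨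
    ∃ c d : Cocycle X, IsRefinement c d ∧ z = FreeAbelianGroup.of d - FreeAbelianGroup.of c}

/-- The first Čech cohomology group `Ȟ¹(X; ℤ)`: the direct limit of the first integral cohomology
groups of the nerves of all open covers of `X`, ordered by refinement. It is the abelian group
generated by the integral `1`-cocycles of the nerves of all open covers, with the relations
`relations`. -/
def CechH1 (X : Type u) [TopologicalSpace X] : Type u :=
  FreeAbelianGroup (Cocycle X) ⧸ AddSubgroup.closure (relations X)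

/-- The group structure of the quotient. -/
instance cechH1AddCommGroup (X : Type u) [TopologicalSpace X] : AddCommGroup (CechH1 X) :=
  QuotientAddGroup.Quotient.addCommGroup (AddSubgroup.closure (relations X))

/-- The rank `r` of `Ȟ¹(X; ℤ)`: the dimension over `ℚ` of `ℚ ⊗ Ȟ¹(X; ℤ)` (the tensor product is over
`ℤ`), a cardinal number. -/
noncomputable def cechRank (X : Type u) [TopologicalSpace X] : Cardinal.{u} :=
  Module.rank ℚ (ℚ ⊗[ℤ] CechH1 X)

/-- Covering dimension at most `n`: every finite open cover `𝒰` of `X` has an open refinement `𝒱`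
such that every point of `X` lies in at most `n + 1` members of `𝒱`. -/
def CoveringDimLE (X : Type u) [TopologicalSpace X] (n : ℕ) : Prop :=
  ∀ 𝒰 : Set (Set X), 𝒰.Finite → IsCover 𝒰 → ∃ 𝒱 : Set (Set X), IsCover 𝒱 ∧
    (∀ V ∈ 𝒱, ∃ U ∈ 𝒰, V ⊆ U) ∧ ∀ x : X, {V ∈ 𝒱 | x ∈ V}.encard ≤ n + 1

/-- `X` is homogeneous: for all points `x` and `y` there is a homeomorphism `h` of `X` onto itself
with `h x = y`. -/
def IsHomogeneous (X : Type u) [TopologicalSpace X] : Prop :=
  ∀ x y : X, ∃ h : X ≃ₜ X, h x = y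

end Definitions

/-! ### The group -/

section Group

variable {X : Type u} [TopologicalSpace X]

/-- the class of a cocycle -/
def cls (c : Cocycle X) : CechH1 X :=
  QuotientAddGroup.mk' (AddSubgroup.closure (relations X)) (FreeAbelianGroup.of c)

theorem mk_eq {z w : FreeAbelianGroup (Cocycle X)} (h : z - w ∈ relations X) :
    QuotientAddGroup.mk' (AddSubgroup.closure (relations X)) z =
      QuotientAddGroup.mk' (AddSubgroup.closure (relations X)) w := by
  rw [← sub_eq_zero, ← map_sub]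
  exact (QuotientAddGroup.eq_zero_iff _).2 (AddSubgroup.subset_closure h)

theorem cls_sum {a b c : Cocycle X} (h : IsSum a b c) : cls c = cls a + cls b :=
  mk_eq (w := FreeAbelianGroup.of a + FreeAbelianGroup.of b) (Or.inl ⟨a, b, c, h, rfl⟩)

theorem cls_refinement {c d : Cocycle X} (h : IsRefinement c d) : cls d = cls c :=
  mk_eq (Or.inr ⟨c, d, h, rfl⟩)

/-- the zero cocycle on an open cover -/
def zeroCocycle (𝒰 : Set (Set X)) (h : IsCover 𝒰) : Cocycle X :=
  ⟨𝒰, h, fun _ _ => 0, fun _ _ _ _ _ _ _ => rfl⟩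

theorem cls_zero (𝒰 : Set (Set X)) (h : IsCover 𝒰) : cls (zeroCocycle 𝒰 h) = 0 := by
  have h1 : cls (zeroCocycle 𝒰 h) = cls (zeroCocycle 𝒰 h) + cls (zeroCocycle 𝒰 h) :=
    cls_sum ⟨rfl, rfl, fun _ _ => rfl⟩
  exact left_eq_add.1 h1

/-- the cocycles on an open cover, as a subgroup of a group of functions -/
def cocycles (𝒰 : Set (Set X)) : AddSubgroup (Set X → Set X → ℤ) where
  carrier := {c | ∀ U ∈ 𝒰, ∀ V ∈ 𝒰, ∀ W ∈ 𝒰, (U ∩ V ∩ W).Nonempty → c U V + c V W = c U W}
  zero_mem' := fun _ _ _ _ _ _ _ => rfl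
  add_mem' := fun {a b} ha hb U hU V hV W hW h => by
    have h1 := ha U hU V hV W hW h
    have h2 := hb U hU V hV W hW h
    simp only [Pi.add_apply]
    linarith
  neg_mem' := fun {a} ha U hU V hV W hW h => by
    have h1 := ha U hU V hV W hW h
    simp only [Pi.neg_apply]
    linarith

/-- the class in the direct limit of a cocycle on a fixed open cover, as a homomorphism -/
def clsHom (𝒰 : Set (Set X)) (h𝒰 : IsCover 𝒰) : cocycles 𝒰 →+ CechH1 X where
  toFun c := cls ⟨𝒰, h𝒰, c.1, c.2⟩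
  map_zero' := cls_zero 𝒰 h𝒰
  map_add' _ _ := cls_sum ⟨rfl, rfl, fun _ _ => rfl⟩

/-- The class of a cocycle can be computed on a finer cover. -/
theorem exists_clsHom_of_le {𝒰 𝒱 : Set (Set X)} (h𝒰 : IsCover 𝒰) (h𝒱 : IsCover 𝒱)
    (h : ∀ V ∈ 𝒱, ∃ U ∈ 𝒰, V ⊆ U) (c : cocycles 𝒰) :
    ∃ d : cocycles 𝒱, clsHom 𝒱 h𝒱 d = clsHom 𝒰 h𝒰 c := by
  classical
  have h' : ∀ V : Set X, ∃ U : Set X, V ∈ 𝒱 → U ∈ 𝒰 ∧ V ⊆ U := by
    intro V
    by_cases hV : V ∈ 𝒱
    · obtain ⟨U, h1, h2⟩ := h V hV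
      exact ⟨U, fun _ => ⟨h1, h2⟩⟩
    · exact ⟨∅, fun h0 => (hV h0).elim⟩
  choose p hp using h'
  refine ⟨⟨fun V W => c.1 (p V) (p W), fun U hU V hV W hW hn => ?_⟩, ?_⟩
  · exact c.2 _ (hp U hU).1 _ (hp V hV).1 _ (hp W hW).1
      (hn.mono (Set.inter_subset_inter (Set.inter_subset_inter (hp U hU).2 (hp V hV).2) (hp W hW).2))
  · exact cls_refinement ⟨p, fun _ => 0, hp, fun V _ W _ _ => by simp⟩

theorem isCover_inter {𝒰 𝒱 : Set (Set X)} (h𝒰 : IsCover 𝒰) (h𝒱 : IsCover 𝒱) :
    IsCover {W | ∃ U ∈ 𝒰, ∃ V ∈ 𝒱, W = U ∩ V} := by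
  refine ⟨?_, ?_⟩
  · rintro _ ⟨U, hU, V, hV, rfl⟩
    exact (h𝒰.1 U hU).inter (h𝒱.1 V hV)
  · rw [Set.eq_univ_iff_forall]
    intro x
    obtain ⟨U, hU, hxU⟩ : x ∈ ⋃₀ 𝒰 := by rw [h𝒰.2]; trivial
    obtain ⟨V, hV, hxV⟩ : x ∈ ⋃₀ 𝒱 := by rw [h𝒱.2]; trivial
    exact ⟨U ∩ V, ⟨U, hU, V, hV, rfl⟩, hxU, hxV⟩

/-- two classes on a common cover, for given cocycles -/
theorem exists_common {𝒰 𝒱 : Set (Set X)} (h𝒰 : IsCover 𝒰) (h𝒱 : IsCover 𝒱) (c : cocycles 𝒰)
    (d : cocycles 𝒱) : ∃ (𝒲 : Set (Set X)) (h𝒲 : IsCover 𝒲) (c' d' : cocycles 𝒲),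
      clsHom 𝒲 h𝒲 c' = clsHom 𝒰 h𝒰 c ∧ clsHom 𝒲 h𝒲 d' = clsHom 𝒱 h𝒱 d := by
  obtain ⟨c', hc'⟩ := exists_clsHom_of_le h𝒰 (isCover_inter h𝒰 h𝒱)
    (by rintro _ ⟨U, hU, V, hV, rfl⟩; exact ⟨U, hU, Set.inter_subset_left⟩) c
  obtain ⟨d', hd'⟩ := exists_clsHom_of_le h𝒱 (isCover_inter h𝒰 h𝒱)
    (by rintro _ ⟨U, hU, V, hV, rfl⟩; exact ⟨V, hV, Set.inter_subset_right⟩) d
  exact ⟨_, isCover_inter h𝒰 h𝒱, c', d', hc', hd'⟩

/-- Every element of the group is the class of a cocycle. -/
theorem exists_clsHom (z : CechH1 X) :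
    ∃ (𝒰 : Set (Set X)) (h𝒰 : IsCover 𝒰) (c : cocycles 𝒰), clsHom 𝒰 h𝒰 c = z := by
  obtain ⟨y, rfl⟩ := QuotientAddGroup.mk'_surjective (AddSubgroup.closure (relations X)) z
  induction y using FreeAbelianGroup.induction_on with
  | zero =>
    refine ⟨{Set.univ}, ⟨by rintro _ rfl; exact isOpen_univ, by simp⟩, 0, ?_⟩
    rw [map_zero, map_zero]
    rfl
  | of c => exact ⟨c.cover, c.isCover, ⟨c.val, c.cocycle⟩, rfl⟩
  | neg c _ =>
    refine ⟨c.cover, c.isCover, -⟨c.val, c.cocycle⟩, ?_⟩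
    rw [map_neg, map_neg]
    rfl
  | add y₁ y₂ h₁ h₂ =>
    obtain ⟨𝒰, h𝒰, c, hc⟩ := h₁
    obtain ⟨𝒱, h𝒱, d, hd⟩ := h₂
    obtain ⟨𝒲, h𝒲, c', d', hc', hd'⟩ := exists_common h𝒰 h𝒱 c d
    refine ⟨𝒲, h𝒲, c' + d', ?_⟩
    rw [map_add, map_add, hc', hd', hc, hd]
    rfl

theorem exists_clsHom₂ (z w : CechH1 X) :
    ∃ (𝒰 : Set (Set X)) (h𝒰 : IsCover 𝒰) (c d : cocycles 𝒰),
      clsHom 𝒰 h𝒰 c = z ∧ clsHom 𝒰 h𝒰 d = w := by
  obtain ⟨𝒰, h𝒰, c, rfl⟩ := exists_clsHom z
  obtain ⟨𝒱, h𝒱, d, rfl⟩ := exists_clsHom w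
  exact exists_common h𝒰 h𝒱 c d

/-- A cocycle `e` on `𝒰` vanishes in the direct limit if there are integer valued continuous
functions `u U` on the members of `𝒰` with differences `e`. -/
theorem clsHom_eq_zero_of_integral {𝒰 : Set (Set X)} (h𝒰 : IsCover 𝒰) (e : cocycles 𝒰)
    (u : Set X → X → ℝ)
    (h₁ : ∀ U ∈ 𝒰, ContinuousOn (u U) U)
    (h₂ : ∀ U ∈ 𝒰, ∀ x ∈ U, ∃ n : ℤ, u U x = n)
    (h₃ : ∀ U ∈ 𝒰, ∀ V ∈ 𝒰, ∀ x ∈ U, x ∈ V → u U x - u V x = (e.1 U V : ℝ)) :
    clsHom 𝒰 h𝒰 e = 0 := by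
  classical
  set 𝒱 : Set (Set X) := {W | IsOpen W ∧ ∃ U ∈ 𝒰, W ⊆ U ∧ ∃ n : ℤ, ∀ x ∈ W, u U x = n} with h𝒱def
  have h𝒱 : IsCover 𝒱 := by
    refine ⟨fun W hW => hW.1, ?_⟩
    rw [Set.eq_univ_iff_forall]
    intro x
    obtain ⟨U, hU, hx⟩ : x ∈ ⋃₀ 𝒰 := by rw [h𝒰.2]; trivial
    obtain ⟨n, hn⟩ := h₂ U hU x hx
    refine ⟨U ∩ u U ⁻¹' Set.Ioo ((n : ℝ) - 1 / 2) (n + 1 / 2),
      ⟨(h₁ U hU).isOpen_inter_preimage (h𝒰.1 U hU) isOpen_Ioo, U, hU,
        Set.inter_subset_left, n, fun y hy => ?_⟩, hx, ?_⟩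
    · obtain ⟨k, hk⟩ := h₂ U hU y hy.1
      have h4 := hy.2
      rw [Set.mem_preimage, Set.mem_Ioo, hk] at h4
      have h5 : |((k - n : ℤ) : ℝ)| < 1 := by
        rw [abs_lt]
        push_cast
        constructor <;> linarith [h4.1, h4.2]
      have h6 : |k - n| < 1 := by exact_mod_cast h5
      rw [Int.abs_lt_one_iff] at h6
      have h7 : k = n := by omega
      rw [hk, h7]
    · rw [Set.mem_preimage, hn]
      constructor <;> linarith
  have hex : ∀ W : Set X, ∃ (U : Set X) (n : ℤ), W ∈ 𝒱 → U ∈ 𝒰 ∧ W ⊆ U ∧ ∀ x ∈ W, u U x = n := by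
    intro W
    by_cases hW : W ∈ 𝒱
    · obtain ⟨-, U, hU, h5, n, hn⟩ := hW
      exact ⟨U, n, fun _ => ⟨hU, h5, hn⟩⟩
    · exact ⟨∅, 0, fun h0 => (hW h0).elim⟩
  choose p n hpn using hex
  rw [← cls_zero 𝒱 h𝒱]
  symm
  refine cls_refinement (c := ⟨𝒰, h𝒰, e.1, e.2⟩) (d := zeroCocycle 𝒱 h𝒱)
    ⟨p, n, fun V hV => ⟨(hpn V hV).1, (hpn V hV).2.1⟩, fun V hV W hW hne => ?_⟩
  obtain ⟨x, hxV, hxW⟩ := hne
  obtain ⟨a1, a2, a3⟩ := hpn V hV
  obtain ⟨b1, b2, b3⟩ := hpn W hW
  have h4 := h₃ (p V) a1 (p W) b1 x (a2 hxV) (b2 hxW)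
  rw [a3 x hxV, b3 x hxW] at h4
  have h5 : n V - n W = e.1 (p V) (p W) := by exact_mod_cast h4
  change (0 : ℤ) = e.1 (p V) (p W) + (n W - n V)
  rw [← h5]
  ring

end Group

/-! ### Maps to the circle -/

section Maps

variable {X : Type u} [TopologicalSpace X]

/-- The cocycle `c` comes from the map `g` to the circle: there are continuous angles `s U` (in
turns) of `g` on the members of the cover with differences `c`. -/
def Realizes (c : Cocycle X) (g : C(X, Circle)) : Prop :=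
  ∃ s : Set X → X → ℝ, (∀ U ∈ c.cover, ContinuousOn (s U) U) ∧
    (∀ U ∈ c.cover, ∀ V ∈ c.cover, ∀ x ∈ U, x ∈ V → s U x - s V x = (c.val U V : ℝ)) ∧
    ∀ U ∈ c.cover, ∀ x ∈ U, g x = Circle.exp (2 * Real.pi * s U x)

/-- the maps with a continuous angle -/
def liftable (X : Type u) [TopologicalSpace X] : Subgroup C(X, Circle) where
  carrier := {g | ∃ f : C(X, ℝ), ∀ x, g x = Circle.exp (f x)}
  one_mem' := ⟨0, fun x => by simp⟩
  mul_mem' := by
    rintro a b ⟨f, hf⟩ ⟨g, hg⟩
    exact ⟨f + g, fun x => by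
      rw [ContinuousMap.mul_apply, ContinuousMap.add_apply, Circle.exp_add, hf, hg]⟩
  inv_mem' := by
    rintro a ⟨f, hf⟩
    exact ⟨-f, fun x => by
      rw [ContinuousMap.inv_apply, ContinuousMap.neg_apply, Circle.exp_neg, hf]⟩

/-- Gluing of functions given on the members of an open cover that agree on the overlaps. -/
theorem exists_glue {𝒰 : Set (Set X)} (h𝒰 : IsCover 𝒰) {Y : Type*} [TopologicalSpace Y]
    (F : Set X → X → Y) (hc : ∀ U ∈ 𝒰, ContinuousOn (F U) U)
    (hF : ∀ U ∈ 𝒰, ∀ V ∈ 𝒰, ∀ x ∈ U, x ∈ V → F U x = F V x) :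
    ∃ f : C(X, Y), ∀ U ∈ 𝒰, ∀ x ∈ U, f x = F U x := by
  have hex : ∀ x : X, ∃ V : Set X, V ∈ 𝒰 ∧ x ∈ V := by
    intro x
    obtain ⟨V, hV, hx⟩ : x ∈ ⋃₀ 𝒰 := by rw [h𝒰.2]; trivial
    exact ⟨V, hV, hx⟩
  choose v hv hxv using hex
  refine ⟨⟨fun x => F (v x) x, ?_⟩, fun U hU x hx => hF _ (hv x) _ hU x (hxv x) hx⟩
  rw [continuous_iff_continuousAt]
  intro x
  have hcx : ContinuousAt (F (v x)) x :=
    (hc _ (hv x)).continuousAt ((h𝒰.1 _ (hv x)).mem_nhds (hxv x))
  refine hcx.congr ?_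
  filter_upwards [(h𝒰.1 _ (hv x)).mem_nhds (hxv x)] with y hy
  exact hF _ (hv x) _ (hv y) y hy (hxv y)

theorem realizes_refinement {c d : Cocycle X} (h : IsRefinement c d) {g k : C(X, Circle)}
    (hg : Realizes c g) (hk : Realizes d k) : k / g ∈ liftable X := by
  obtain ⟨p, b, hp, hb⟩ := h
  obtain ⟨s, hs₁, hs₂, hs₃⟩ := hg
  obtain ⟨t, ht₁, ht₂, ht₃⟩ := hk
  obtain ⟨f, hf⟩ := exists_glue d.isCover
    (fun V x => 2 * Real.pi * (t V x - s (p V) x + b V)) (fun V hV =>
      continuousOn_const.mul (((ht₁ V hV).sub ((hs₁ _ (hp V hV).1).mono (hp V hV).2)).add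
        continuousOn_const)) (fun V hV W hW x hxV hxW => by
      have h1 := hb V hV W hW ⟨x, hxV, hxW⟩
      have h2 := ht₂ V hV W hW x hxV hxW
      have h3 := hs₂ _ (hp V hV).1 _ (hp W hW).1 x ((hp V hV).2 hxV) ((hp W hW).2 hxW)
      have h4 : ((d.val V W : ℤ) : ℝ) = c.val (p V) (p W) + ((b W : ℝ) - b V) := by
        rw [h1]; push_cast; ring
      have h5 : t V x - s (p V) x + b V = t W x - s (p W) x + b W := by
        rw [← h2, ← h3] at h4
        linarith
      simp only [h5])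
  refine ⟨f, fun x => ?_⟩
  obtain ⟨V, hV, hx⟩ : x ∈ ⋃₀ d.cover := by rw [d.isCover.2]; trivial
  rw [hf V hV x hx, ContinuousMap.div_apply, ht₃ V hV x hx, hs₃ _ (hp V hV).1 x ((hp V hV).2 hx),
    ← Circle.exp_sub]
  have h6 : 2 * Real.pi * (t V x - s (p V) x + b V) =
      (2 * Real.pi * t V x - 2 * Real.pi * s (p V) x) + 2 * Real.pi * (b V : ℤ) := by ring
  rw [h6, Circle.exp_add, Circle.exp_two_pi_mul_int, mul_one]

theorem realizes_sum {a b c : Cocycle X} (h : IsSum a b c) {g k l : C(X, Circle)}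
    (hg : Realizes a g) (hk : Realizes b k) (hl : Realizes c l) : l / (g * k) ∈ liftable X := by
  obtain ⟨ha, hb, hc⟩ := h
  obtain ⟨s, hs₁, hs₂, hs₃⟩ := hg
  obtain ⟨t, ht₁, ht₂, ht₃⟩ := hk
  obtain ⟨r, hr₁, hr₂, hr₃⟩ := hl
  rw [ha] at hs₁ hs₂ hs₃
  rw [hb] at ht₁ ht₂ ht₃
  obtain ⟨f, hf⟩ := exists_glue c.isCover
    (fun V x => 2 * Real.pi * (r V x - (s V x + t V x))) (fun V hV =>
      continuousOn_const.mul ((hr₁ V hV).sub ((hs₁ V hV).add (ht₁ V hV))))
      (fun V hV W hW x hxV hxW => by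
      have h1 := hs₂ V hV W hW x hxV hxW
      have h2 := ht₂ V hV W hW x hxV hxW
      have h3 := hr₂ V hV W hW x hxV hxW
      have h4 : ((c.val V W : ℤ) : ℝ) = a.val V W + b.val V W := by
        rw [hc]; push_cast; ring
      have h5 : r V x - (s V x + t V x) = r W x - (s W x + t W x) := by
        rw [← h1, ← h2, ← h3] at h4
        linarith
      simp only [h5])
  refine ⟨f, fun x => ?_⟩
  obtain ⟨V, hV, hx⟩ : x ∈ ⋃₀ c.cover := by rw [c.isCover.2]; trivial
  rw [hf V hV x hx, ContinuousMap.div_apply, ContinuousMap.mul_apply, hr₃ V hV x hx,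
    hs₃ V hV x hx, ht₃ V hV x hx, ← Circle.exp_add, ← Circle.exp_sub]
  congr 1
  ring

theorem isRefinement_refl (c : Cocycle X) : IsRefinement c c :=
  ⟨id, fun _ => 0, fun _ hV => ⟨hV, subset_rfl⟩, fun V _ W _ _ => by simp⟩

/-- Every map to the circle realizes a cocycle. -/
theorem exists_cocycle (g : C(X, Circle)) : ∃ c : Cocycle X, Realizes c g := by
  classical
  have hpi := Real.pi_pos
  have hcont : ∀ t : ℝ, Continuous fun x => ((g x * Circle.exp (-t) : Circle) : ℂ) :=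
    fun t => continuous_subtype_val.comp (g.continuous.mul continuous_const)
  set 𝒰 : Set (Set X) :=
    {U | IsOpen U ∧ ∃ t : ℝ, ∀ x ∈ U, 0 < ((g x * Circle.exp (-t) : Circle) : ℂ).re} with h𝒰def
  have h𝒰 : IsCover 𝒰 := by
    refine ⟨fun U hU => hU.1, ?_⟩
    rw [Set.eq_univ_iff_forall]
    intro x
    refine ⟨{y | 0 < ((g y * Circle.exp (-(Complex.arg (g x))) : Circle) : ℂ).re},
      ⟨isOpen_lt continuous_const (Complex.continuous_re.comp (hcont _)),
        Complex.arg (g x), fun y hy => hy⟩, ?_⟩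
    rw [Set.mem_ofPred_eq, Circle.exp_neg, Circle.exp_arg, mul_inv_cancel]
    simp
  have hU : ∀ U : Set X, ∃ t : ℝ, U ∈ 𝒰 → ∀ x ∈ U,
      0 < ((g x * Circle.exp (-t) : Circle) : ℂ).re := by
    intro U
    by_cases hU : U ∈ 𝒰
    · obtain ⟨t, ht⟩ := hU.2
      exact ⟨t, fun _ => ht⟩
    · exact ⟨0, fun h0 => (hU h0).elim⟩
  choose t ht using hU
  set θ : Set X → X → ℝ := fun U x =>
    t U + Complex.arg ((g x * Circle.exp (-(t U)) : Circle) : ℂ) with hθ
  have hexp : ∀ U : Set X, ∀ x, Circle.exp (θ U x) = g x := by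
    intro U x
    rw [hθ]
    simp only
    rw [Circle.exp_add, Circle.exp_arg, Circle.exp_neg, mul_comm (g x), mul_inv_cancel_left]
  have hint : ∀ U V : Set X, ∃ k : ℤ, U ∈ 𝒰 → V ∈ 𝒰 → ∀ x ∈ U, x ∈ V →
      θ U x - θ V x = 2 * Real.pi * (k : ℝ) := by
    intro U V
    by_cases hne : U ∈ 𝒰 ∧ V ∈ 𝒰 ∧ (U ∩ V).Nonempty
    · obtain ⟨hU, hV, x₀, hx₀U, hx₀V⟩ := hne
      have hb : ∀ x ∈ U, x ∈ V → |(θ U x - θ V x) - (t U - t V)| < Real.pi := by
        intro x hxU hxV
        have h1 := Complex.abs_arg_lt_pi_div_two_iff.2 (Or.inl (ht U hU x hxU))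
        have h2 := Complex.abs_arg_lt_pi_div_two_iff.2 (Or.inl (ht V hV x hxV))
        rw [abs_lt] at h1 h2 ⊢
        simp only [hθ]
        constructor <;> linarith [h1.1, h1.2, h2.1, h2.2]
      have hk : ∀ x : X, ∃ k : ℤ, θ U x - θ V x = 2 * Real.pi * (k : ℝ) := by
        intro x
        obtain ⟨k, hk⟩ := Circle.exp_eq_exp.1 ((hexp U x).trans (hexp V x).symm)
        exact ⟨k, by rw [hk]; ring⟩
      obtain ⟨k, hk₀⟩ := hk x₀
      refine ⟨k, fun _ _ x hxU hxV => ?_⟩
      obtain ⟨k', hk'⟩ := hk x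
      have h1 := hb x₀ hx₀U hx₀V
      have h2 := hb x hxU hxV
      rw [hk₀] at h1
      rw [hk'] at h2 ⊢
      rw [abs_lt] at h1 h2
      have h3 : |((k' - k : ℤ) : ℝ)| < 1 := by
        rw [abs_lt]
        push_cast
        constructor
        · have : 2 * Real.pi * (-1) < 2 * Real.pi * ((k' : ℝ) - k) := by
            linarith [h1.1, h1.2, h2.1, h2.2]
          exact lt_of_mul_lt_mul_left this (by positivity)
        · have : 2 * Real.pi * ((k' : ℝ) - k) < 2 * Real.pi * 1 := by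
            linarith [h1.1, h1.2, h2.1, h2.2]
          exact lt_of_mul_lt_mul_left this (by positivity)
      have h4 : |k' - k| < 1 := by exact_mod_cast h3
      have h5 : k' = k := by
        rw [Int.abs_lt_one_iff] at h4
        omega
      rw [h5]
    · exact ⟨0, fun hU hV x hxU hxV => (hne ⟨hU, hV, x, hxU, hxV⟩).elim⟩
  choose c hc using hint
  refine ⟨⟨𝒰, h𝒰, c, fun U hU V hV W hW hn => ?_⟩, fun U x => θ U x / (2 * Real.pi),
    fun U hU x hx => ?_, fun U hU V hV x hxU hxV => ?_, fun U hU x hx => ?_⟩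
  · obtain ⟨x, ⟨hxU, hxV⟩, hxW⟩ := hn
    have h1 := hc U V hU hV x hxU hxV
    have h2 := hc V W hV hW x hxV hxW
    have h3 := hc U W hU hW x hxU hxW
    have h4 : 2 * Real.pi * (((c U V + c V W : ℤ) : ℝ)) = 2 * Real.pi * ((c U W : ℤ) : ℝ) := by
      push_cast
      rw [mul_add, ← h1, ← h2, ← h3]
      ring
    have h5 := mul_left_cancel₀ (by positivity) h4
    exact_mod_cast h5
  · refine ContinuousAt.continuousWithinAt ?_
    refine ContinuousAt.div_const ?_ _
    refine continuousAt_const.add ?_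
    exact ContinuousAt.comp (g := Complex.arg)
      (f := fun x => ((g x * Circle.exp (-(t U)) : Circle) : ℂ)) (x := x)
      (Complex.continuousAt_arg (Complex.mem_slitPlane_iff.2 (Or.inl (ht U hU x hx))))
      (hcont (t U)).continuousAt
  · have h1 := hc U V hU hV x hxU hxV
    change θ U x / (2 * Real.pi) - θ V x / (2 * Real.pi) = (c U V : ℝ)
    rw [← sub_div, h1]
    field_simp
  · rw [← hexp U x]
    congr 1
    field_simp

variable [NormalSpace X] [ParacompactSpace X]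

/-- Every integral cocycle comes from a map to the circle. -/
theorem exists_realizes (c : Cocycle X) : ∃ g : C(X, Circle), Realizes c g := by
  classical
  obtain ⟨φ, hφ⟩ := PartitionOfUnity.exists_isSubordinate (s := (Set.univ : Set X)) isClosed_univ
    (fun U : c.cover => (U : Set X)) (fun U => c.isCover.1 U U.2) (by
      intro x _
      obtain ⟨U, hU, hx⟩ : x ∈ ⋃₀ c.cover := by rw [c.isCover.2]; trivial
      exact Set.mem_iUnion.2 ⟨⟨U, hU⟩, hx⟩)
  set s : Set X → X → ℝ := fun U x => ∑ᶠ W, φ W x • (c.val U W : ℝ) with hs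
  have hs₁ : ∀ U, Continuous (s U) := fun U =>
    φ.continuous_finsum_smul fun W x _ => continuousAt_const
  have hs₂ : ∀ U ∈ c.cover, ∀ V ∈ c.cover, ∀ x ∈ U, x ∈ V → s U x - s V x = (c.val U V : ℝ) := by
    intro U hU V hV x hxU hxV
    have hmem : ∀ W : c.cover, φ W x ≠ 0 → x ∈ (W : Set X) := fun W hW =>
      hφ W (subset_tsupport _ hW)
    simp only [hs]
    rw [← φ.sum_finsupport_smul_eq_finsum (x₀ := x) (fun W _ => (c.val U W : ℝ)),
      ← φ.sum_finsupport_smul_eq_finsum (x₀ := x) (fun W _ => (c.val V W : ℝ)),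
      ← Finset.sum_sub_distrib]
    have h1 : ∀ W ∈ φ.finsupport x, φ W x • (c.val U W : ℝ) - φ W x • (c.val V W : ℝ) =
        φ W x * (c.val U V : ℝ) := by
      intro W hW
      have hxW : x ∈ (W : Set X) := hmem W ((φ.mem_finsupport x).1 hW)
      have h2 := c.cocycle U hU V hV W W.2 ⟨x, ⟨hxU, hxV⟩, hxW⟩
      rw [← h2]
      push_cast
      simp only [smul_eq_mul]
      ring
    rw [Finset.sum_congr rfl h1, ← Finset.sum_mul, φ.sum_finsupport (Set.mem_univ x), one_mul]
  obtain ⟨g, hg⟩ := exists_glue c.isCover (fun U x => Circle.exp (2 * Real.pi * s U x))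
    (fun U _ => (Circle.exp.continuous.comp (continuous_const.mul (hs₁ U))).continuousOn)
    (fun U hU V hV x hxU hxV => by
      have h3 := hs₂ U hU V hV x hxU hxV
      have h4 : 2 * Real.pi * s U x = 2 * Real.pi * s V x + 2 * Real.pi * (c.val U V : ℝ) := by
        rw [← h3]; ring
      change Circle.exp (2 * Real.pi * s U x) = Circle.exp (2 * Real.pi * s V x)
      rw [h4, Circle.exp_add, Circle.exp_two_pi_mul_int, mul_one])
  exact ⟨g, s, fun U _ => (hs₁ U).continuousOn, hs₂, hg⟩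

/-- a map realizing the cocycle -/
noncomputable def mapOf (c : Cocycle X) : C(X, Circle) := (exists_realizes c).choose

theorem realizes_mapOf (c : Cocycle X) : Realizes c (mapOf c) := (exists_realizes c).choose_spec

/-- The homomorphism from the cohomology group to the group of maps to the circle modulo the maps
with a continuous angle. -/
noncomputable def toMaps : CechH1 X →+ Additive (C(X, Circle) ⧸ liftable X) :=
  QuotientAddGroup.lift (AddSubgroup.closure (relations X))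
    (FreeAbelianGroup.lift fun c => Additive.ofMul (QuotientGroup.mk (mapOf c))) (by
      rw [AddSubgroup.closure_le]
      rintro z (⟨a, b, c, h, rfl⟩ | ⟨c, d, h, rfl⟩)
      · have h1 := realizes_sum h (realizes_mapOf a) (realizes_mapOf b) (realizes_mapOf c)
        rw [SetLike.mem_coe, AddMonoidHom.mem_ker, map_sub, map_add, FreeAbelianGroup.lift_apply_of,
          FreeAbelianGroup.lift_apply_of, FreeAbelianGroup.lift_apply_of, ← ofMul_mul, ← ofMul_div,
          ofMul_eq_zero, ← QuotientGroup.mk_mul, ← QuotientGroup.mk_div]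
        exact (QuotientGroup.eq_one_iff _).2 h1
      · have h1 := realizes_refinement h (realizes_mapOf c) (realizes_mapOf d)
        rw [SetLike.mem_coe, AddMonoidHom.mem_ker, map_sub, FreeAbelianGroup.lift_apply_of,
          FreeAbelianGroup.lift_apply_of, ← ofMul_div, ofMul_eq_zero, ← QuotientGroup.mk_div]
        exact (QuotientGroup.eq_one_iff _).2 h1)

theorem toMaps_cls {c : Cocycle X} {g : C(X, Circle)} (h : Realizes c g) :
    toMaps (cls c) = Additive.ofMul (QuotientGroup.mk g : C(X, Circle) ⧸ liftable X) := by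
  have h1 : toMaps (cls c) =
      Additive.ofMul (QuotientGroup.mk (mapOf c) : C(X, Circle) ⧸ liftable X) := by
    change FreeAbelianGroup.lift _ (FreeAbelianGroup.of c) = _
    rw [FreeAbelianGroup.lift_apply_of]
  rw [h1]
  congr 1
  rw [← div_eq_one, ← QuotientGroup.mk_div]
  exact (QuotientGroup.eq_one_iff _).2 (realizes_refinement (isRefinement_refl c) h (realizes_mapOf c))

/-- If any two maps to the circle are dependent modulo maps with a continuous angle, then any two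
elements of the direct limit are dependent. -/
theorem dependent_of_maps
    (h : ∀ g₁ g₂ : C(X, Circle), ∃ a b : ℤ, (a ≠ 0 ∨ b ≠ 0) ∧
      ∃ f : C(X, ℝ), ∀ x : X, (g₁ x) ^ a * (g₂ x) ^ b = Circle.exp (f x)) (z w : CechH1 X) :
    ∃ a b : ℤ, (a ≠ 0 ∨ b ≠ 0) ∧ a • z + b • w = 0 := by
  obtain ⟨𝒰, h𝒰, c, d, rfl, rfl⟩ := exists_clsHom₂ z w
  obtain ⟨g₁, s, hs₁, hs₂, hs₃⟩ := exists_realizes (⟨𝒰, h𝒰, c.1, c.2⟩ : Cocycle X)
  obtain ⟨g₂, t, ht₁, ht₂, ht₃⟩ := exists_realizes (⟨𝒰, h𝒰, d.1, d.2⟩ : Cocycle X)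
  obtain ⟨a, b, hab, f, hf⟩ := h g₁ g₂
  refine ⟨a, b, hab, ?_⟩
  rw [← map_zsmul, ← map_zsmul, ← map_add]
  have hpi := Real.pi_pos
  refine clsHom_eq_zero_of_integral h𝒰 _ (fun U x => a * s U x + b * t U x - f x / (2 * Real.pi))
    (fun U hU => ?_) (fun U hU x hx => ?_) (fun U hU V hV x hxU hxV => ?_)
  · exact ((continuousOn_const.mul (hs₁ U hU)).add (continuousOn_const.mul (ht₁ U hU))).sub
      (f.continuous.div_const _).continuousOn
  · have h1 := hf x
    rw [hs₃ U hU x hx, ht₃ U hU x hx] at h1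
    have h2 : Circle.exp (a * (2 * Real.pi * s U x) + b * (2 * Real.pi * t U x)) =
        Circle.exp (f x) := by
      rw [← h1, Circle.exp_add]
      congr 1
      · rw [← zsmul_eq_mul]
        exact map_zsmul Circle.expHom a (2 * Real.pi * s U x)
      · rw [← zsmul_eq_mul]
        exact map_zsmul Circle.expHom b (2 * Real.pi * t U x)
    obtain ⟨n, hn⟩ := Circle.exp_eq_exp.1 h2
    refine ⟨n, ?_⟩
    field_simp
    linarith
  · have h1 := hs₂ U hU V hV x hxU hxV
    have h2 := ht₂ U hU V hV x hxU hxV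
    have h3 : (((a • c + b • d : cocycles 𝒰).1 U V : ℤ) : ℝ) =
        a * (c.1 U V : ℝ) + b * (d.1 U V : ℝ) := by
      have : (a • c + b • d : cocycles 𝒰).1 U V = a * c.1 U V + b * d.1 U V := by simp
      rw [this]
      push_cast
      ring
    change s U x - s V x = (c.1 U V : ℝ) at h1
    change t U x - t V x = (d.1 U V : ℝ) at h2
    rw [h3, ← h1, ← h2]
    ring

end Maps

/-! ### The rank -/

section Rank

variable (X : Type u) [TopologicalSpace X]

/-- The dimension over `ℚ` of `ℚ ⊗ Ȟ¹(X; ℤ)` is the maximal cardinality of a set of elements that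
are linearly independent over `ℤ`. -/
theorem cechRank_eq : cechRank X = Module.rank ℤ (CechH1 X) :=
  (TensorProduct.isBaseChange ℤ (CechH1 X) ℚ).rank_eq

variable {X}

/-- Finite rank gives integer relations among the maps to the circle. -/
theorem relations_of_finite_rank [NormalSpace X] [ParacompactSpace X] {m : ℕ}
    (hm : Module.rank ℤ (CechH1 X) = m)
    (g : Fin (m + 1) → C(X, Circle)) : ∃ k : Fin (m + 1) → ℤ, k ≠ 0 ∧
      ∃ f : C(X, ℝ), ∀ x : X, ∏ i, (g i x) ^ (k i) = Circle.exp (f x) := by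
  have hc : ∀ l, ∃ c : Cocycle X, Realizes c (g l) := fun l => exists_cocycle (g l)
  choose c hc using hc
  have hdep : ¬ LinearIndependent ℤ (fun l => cls (c l)) := by
    intro hi
    have h4 := hi.cardinal_lift_le_rank
    rw [hm] at h4
    simp only [Cardinal.mk_fin, Cardinal.lift_natCast] at h4
    have h5 : m + 1 ≤ m := by exact_mod_cast h4
    omega
  obtain ⟨k, hk, i, hi⟩ := Fintype.not_linearIndependent_iff.1 hdep
  refine ⟨k, fun h0 => hi (by rw [h0]; rfl), ?_⟩
  have h1 := congrArg toMaps hk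
  rw [map_sum, map_zero] at h1
  have h2 : (∑ l, toMaps (k l • cls (c l))) =
      Additive.ofMul (QuotientGroup.mk (∏ l, g l ^ k l) : C(X, Circle) ⧸ liftable X) := by
    have h3 : (QuotientGroup.mk (∏ l, g l ^ k l) : C(X, Circle) ⧸ liftable X) =
        ∏ l, (QuotientGroup.mk (g l) : C(X, Circle) ⧸ liftable X) ^ k l :=
      map_prod (QuotientGroup.mk' (liftable X)) (fun l => g l ^ k l) Finset.univ
    rw [h3, ofMul_prod]
    refine Finset.sum_congr rfl fun l _ => ?_
    rw [map_zsmul, toMaps_cls (hc l), ofMul_zpow]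
  rw [h2, ofMul_eq_zero] at h1
  obtain ⟨f, hf⟩ := (QuotientGroup.eq_one_iff _).1 h1
  refine ⟨f, fun x => ?_⟩
  rw [← hf x, ContinuousMap.prod_apply]
  rfl

/-- If any two elements are dependent, the rank is at most one. -/
theorem rank_le_one (h : ∀ z w : CechH1 X, ∃ a b : ℤ, (a ≠ 0 ∨ b ≠ 0) ∧ a • z + b • w = 0) :
    Module.rank ℤ (CechH1 X) ≤ 1 := by
  have : Module.rank ℤ (CechH1 X) ≤ ((1 : ℕ) : Cardinal) := by
    refine rank_le fun s hs => ?_
    by_contra hc
    push Not at hc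
    obtain ⟨z, hz, w, hw, hne⟩ := Finset.one_lt_card.1 hc
    obtain ⟨a, b, hab, h0⟩ := h z w
    have hp : LinearIndependent ℤ ![z, w] := by
      have h1 := hs.comp (![⟨z, hz⟩, ⟨w, hw⟩] : Fin 2 → s) (by
        intro i j hij
        fin_cases i <;> fin_cases j
        · rfl
        · exact absurd (congrArg Subtype.val hij) hne
        · exact absurd (congrArg Subtype.val hij).symm hne
        · rfl)
      have h2 : (fun i : s => (i : CechH1 X)) ∘ (![⟨z, hz⟩, ⟨w, hw⟩] : Fin 2 → s) = ![z, w] := by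
        funext i
        fin_cases i <;> rfl
      rwa [h2] at h1
    rw [LinearIndependent.pair_iff] at hp
    obtain ⟨h1, h2⟩ := hp a b h0
    rcases hab with h | h
    · exact h h1
    · exact h h2
  simpa using this

end Rank

/-! ### Dimension and change of the universe -/

section Transfer

open Pool.Agent.Work.MP_7dea6f_gt (main DimOne FinRank Indep)

/-- Every compact metric space is homeomorphic to one in the lowest universe. -/
theorem exists_homeomorph (X : Type u) [MetricSpace X] [CompactSpace X] :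
    ∃ (Y : Type) (_ : MetricSpace Y), Nonempty (X ≃ₜ Y) :=
  ⟨Set.range (kuratowskiEmbedding X), inferInstance,
    ⟨(kuratowskiEmbedding.isometry X).isEmbedding.toHomeomorph⟩⟩

/-- Covering dimension at most one, with indexed finite covers. -/
theorem finite_refinement {X : Type u} [TopologicalSpace X] [CompactSpace X]
    (hdim : CoveringDimLE X 1) (n : ℕ) (U : Fin n → Set X) (hU : ∀ i, IsOpen (U i))
    (hc : (⋃ i, U i) = Set.univ) :
    ∃ (m : ℕ) (V : Fin m → Set X), (∀ j, IsOpen (V j)) ∧ (⋃ j, V j) = Set.univ ∧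
      (∀ j, ∃ i, V j ⊆ U i) ∧
      ∀ (x : X) (j₁ j₂ j₃ : Fin m), x ∈ V j₁ → x ∈ V j₂ → x ∈ V j₃ →
        j₁ = j₂ ∨ j₁ = j₃ ∨ j₂ = j₃ := by
  classical
  obtain ⟨𝒱, h𝒱, hle, hord⟩ := hdim (Set.range U) (Set.finite_range U)
    ⟨by rintro _ ⟨i, rfl⟩; exact hU i, by rw [Set.sUnion_range]; exact hc⟩
  obtain ⟨T, hT⟩ := isCompact_univ.elim_finite_subcover (fun V : 𝒱 => (V : Set X))
    (fun V => h𝒱.1 V V.2) (by rw [← Set.sUnion_eq_iUnion, h𝒱.2])
  refine ⟨T.card, fun j => ((T.equivFin.symm j : T) : 𝒱), fun j => h𝒱.1 _ (Subtype.coe_prop _),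
    ?_, fun j => ?_, ?_⟩
  · rw [Set.eq_univ_iff_forall]
    intro x
    obtain ⟨V, hV, hx⟩ := Set.mem_iUnion₂.1 (hT (Set.mem_univ x))
    exact Set.mem_iUnion.2 ⟨T.equivFin ⟨V, hV⟩, by rw [Equiv.symm_apply_apply]; exact hx⟩
  · obtain ⟨_, ⟨i, rfl⟩, hi⟩ := hle _ (Subtype.coe_prop ((T.equivFin.symm j : T) : 𝒱))
    exact ⟨i, hi⟩
  · intro x j₁ j₂ j₃ h₁ h₂ h₃
    by_contra hcon
    push Not at hcon
    obtain ⟨h12, h13, h23⟩ := hcon
    have hinj : ∀ i j : Fin T.card, i ≠ j →
        (((T.equivFin.symm i : T) : 𝒱) : Set X) ≠ (((T.equivFin.symm j : T) : 𝒱) : Set X) := by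
      intro i j hij h
      exact hij (T.equivFin.symm.injective (Subtype.ext (Subtype.ext h)))
    have hsub : ({(((T.equivFin.symm j₁ : T) : 𝒱) : Set X),
        (((T.equivFin.symm j₂ : T) : 𝒱) : Set X),
        (((T.equivFin.symm j₃ : T) : 𝒱) : Set X)} : Set (Set X)) ⊆ {V ∈ 𝒱 | x ∈ V} := by
      rintro V (rfl | rfl | rfl)
      · exact ⟨Subtype.coe_prop _, h₁⟩
      · exact ⟨Subtype.coe_prop _, h₂⟩
      · exact ⟨Subtype.coe_prop _, h₃⟩
    have h3 := Set.encard_le_encard hsub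
    rw [Set.encard_insert_of_notMem (by
      simp only [Set.mem_insert_iff, Set.mem_singleton_iff, not_or]
      exact ⟨hinj _ _ h12, hinj _ _ h13⟩), Set.encard_pair (hinj _ _ h23)] at h3
    have h4 := h3.trans (hord x)
    norm_num at h4

/-- The theorem in terms of maps to the circle, in every universe. -/
theorem maps_dependent {X : Type u} [MetricSpace X] [CompactSpace X] [ConnectedSpace X]
    (hdim : CoveringDimLE X 1) (hhom : IsHomogeneous X) {m : ℕ}
    (hm : ∀ g : Fin (m + 1) → C(X, Circle), ∃ k : Fin (m + 1) → ℤ, k ≠ 0 ∧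
      ∃ f : C(X, ℝ), ∀ x : X, ∏ i, (g i x) ^ (k i) = Circle.exp (f x)) (g₁ g₂ : C(X, Circle)) :
    ∃ a b : ℤ, (a ≠ 0 ∨ b ≠ 0) ∧
      ∃ f : C(X, ℝ), ∀ x : X, (g₁ x) ^ a * (g₂ x) ^ b = Circle.exp (f x) := by
  obtain ⟨Y, _, ⟨e⟩⟩ := exists_homeomorph X
  have : CompactSpace Y := e.compactSpace
  have : ConnectedSpace Y := e.surjective.connectedSpace e.continuous
  have hdimY : DimOne Y := by
    intro n U hU hc
    obtain ⟨k, V, h1, h2, h3, h4⟩ := finite_refinement hdim n (fun i => e ⁻¹' (U i))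
      (fun i => (hU i).preimage e.continuous) (by rw [← Set.preimage_iUnion, hc, Set.preimage_univ])
    refine ⟨k, fun j => e.symm ⁻¹' (V j), fun j => (h1 j).preimage e.symm.continuous, by
      rw [← Set.preimage_iUnion, h2, Set.preimage_univ], fun j => ?_, fun y j₁ j₂ j₃ a b c =>
        h4 (e.symm y) j₁ j₂ j₃ a b c⟩
    obtain ⟨i, hi⟩ := h3 j
    exact ⟨i, fun y hy => by simpa using hi hy⟩
  have hhomY : ∀ x y : Y, ∃ h : Y ≃ₜ Y, h x = y := by
    intro x y
    obtain ⟨h, hh⟩ := hhom (e.symm x) (e.symm y)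
    exact ⟨(e.symm.trans h).trans e, by simp [hh]⟩
  have hmY : FinRank Y m := by
    intro g
    obtain ⟨k, hk, f, hf⟩ := hm (fun i => (g i).comp (e : C(X, Y)))
    refine ⟨k, hk, f.comp (e.symm : C(Y, X)), fun y => ?_⟩
    have h1 := hf (e.symm y)
    simp only [ContinuousMap.comp_apply, ContinuousMap.coe_coe, Homeomorph.apply_symm_apply] at h1
    rw [h1]
    rfl
  have hres := main hdimY hhomY hmY (g₁.comp (e.symm : C(Y, X))) (g₂.comp (e.symm : C(Y, X)))
  unfold Indep at hres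
  push Not at hres
  obtain ⟨a, b, hab, f, hf⟩ := hres
  refine ⟨a, b, hab, f.comp (e : C(X, Y)), fun x => Circle.coe_injective ?_⟩
  have h1 := hf (e x)
  simp only [ContinuousMap.comp_apply, ContinuousMap.coe_coe, Homeomorph.symm_apply_apply] at h1
  rw [h1]
  rfl

end Transfer

/-- **Answer to Q1: the rank is at most one.** Let `X` be a continuum, that is, a nonempty compact
connected metric space, of covering dimension at most `1` (so `X` may be any curve), and let `X` be
homogeneous. If the rank `r` of the first Čech cohomology group `Ȟ¹(X; ℤ)` is finite, then `r ≤ 1`. -/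
theorem result (X : Type u) [MetricSpace X] [CompactSpace X] [ConnectedSpace X]
    (hdim : CoveringDimLE X 1) (hhom : IsHomogeneous X) (hfin : cechRank X < Cardinal.aleph0) :
    cechRank X ≤ 1 := by
  rw [cechRank_eq] at hfin ⊢
  obtain ⟨m, hm⟩ := Cardinal.lt_aleph0.1 hfin
  exact rank_le_one (dependent_of_maps
    (maps_dependent hdim hhom (relations_of_finite_rank hm)))

end Pool.Agent.Results.MP_7dea6f_gt.CechRankAtMostOne
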